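import Pool.Agent.ASD.Stmts4

/-!
# Squad ASD, row SLP: the sums `SL` for a pair
-/

open scoped BigOperators

noncomputable section

namespace Pool.Agent.PP.SD.H3

open Pool.Agent.Helper51_AWC Pool.Agent.Helper79_WRA Pool.Agent.PP Pool.Agent.PP.KF
open Pool.Agent.PP.K9 Pool.Agent.PP.K9.H97 Pool.Agent.PP.H75 Pool.Agent.PP.T3 Pool.Agent.PP.SO
open Pool.Agent.PP.SD

attribute [local instance] Ideal.Quotient.field

section parts

variable {ℓ n m : ℕ} {G : Type} [Group G] [Finite G]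

/-- `x ^ m` is an `ℓ`-element, `(x ^ m)⁻¹ x` has order prime to `ℓ` -/
theorem pe_parts [Fact ℓ.Prime] (h : PE ℓ n m G) (x : G) :
    El ℓ (x ^ m) ∧ Reg ℓ ((x ^ m)⁻¹ * x) := by
  have hp : ℓ.Prime := Fact.out
  obtain ⟨b, f, hf, hbf⟩ := Nat.exists_eq_pow_mul_and_not_dvd (orderOf_pos x).ne' ℓ hp.ne_one
  have hfc : Nat.Coprime f ℓ := (Nat.coprime_comm).1 ((hp.coprime_iff_not_dvd).2 hf)
  constructor
  · refine ⟨b, ?_⟩
    have h1 : Reg ℓ (x ^ ℓ ^ b) := by
      unfold Reg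
      have h2 : orderOf (x ^ ℓ ^ b) ∣ f := by
        rw [orderOf_dvd_iff_pow_eq_one, ← pow_mul, ← hbf]
        exact pow_orderOf_eq_one x
      exact Nat.Coprime.coprime_dvd_left h2 hfc
    rw [← pow_mul, mul_comm, pow_mul]
    exact h.rg _ h1
  · have h1 : El ℓ (x ^ f) := by
      refine ⟨b, ?_⟩
      rw [← pow_mul, mul_comm, ← hbf]
      exact pow_orderOf_eq_one x
    have h2 := (h.el _ h1).1
    have hc : Commute (x ^ m)⁻¹ x := ((Commute.refl x).pow_left m).inv_left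
    have h3 : ((x ^ m)⁻¹ * x) ^ f = 1 := by
      rw [hc.mul_pow, inv_pow, ← pow_mul, mul_comm m f, pow_mul, h2, inv_mul_cancel]
    exact Nat.Coprime.coprime_dvd_left (orderOf_dvd_of_pow_eq_one h3) hfc

end parts

section zp

variable {V₀ G : Type} [CommGroup V₀] [Group G]

/-- the condition for `(z, u)`, `z = X ^ m` -/
def Cd (i : V₀ → G) (L : Set (V₀ × V₀ × ℤ)) (z u : G) : Prop :=
  ∀ s ∈ L, u * i s.2.1 * u⁻¹ = i s.1 * z ^ s.2.2


end zp

variable {F V₀ G : Type} [CommGroup V₀] [Group G]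

/-- elements of the centraliser commute with `i(W)` -/
theorem C_comm (B : Bk F V₀ G) (W : Subgroup V₀) {x : G} (hx : x ∈ B.C W) {v : V₀} (hv : v ∈ W) :
    Commute x (B.i v) := by
  unfold Bk.C at hx
  rw [Subgroup.mem_centralizer_iff] at hx
  exact (hx _ (Subgroup.mem_map_of_mem _ hv)).symm

/-- first hypothesis of FIB -/
theorem fib1 (B : Bk F V₀ G) (A : Subgroup V₀) (L : Set (V₀ × V₀ × ℤ)) (h1 : p1 L = A)
    (h2 : p2 L = A) {z u : G} (hz : z ∈ B.C A) (hc : Cd B.i L z u) :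
    ∀ q ∈ A, ∃ p ∈ A, ∃ k : ℤ, u * B.i q * u⁻¹ = B.i p * z ^ k := by
  intro q hq
  rw [← h2] at hq
  unfold p2 at hq
  induction hq using Subgroup.closure_induction with
  | mem x hx =>
    obtain ⟨s, hs, rfl⟩ := hx
    refine ⟨s.1, ?_, s.2.2, hc s hs⟩
    rw [← h1]
    exact Subgroup.subset_closure ⟨s, hs, rfl⟩
  | one =>
    refine ⟨1, A.one_mem, 0, ?_⟩
    rw [map_one, mul_one, mul_inv_cancel, zpow_zero, mul_one]
  | mul x y _ _ ihx ihy =>
    obtain ⟨p, hp, k, hk⟩ := ihx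
    obtain ⟨p', hp', k', hk'⟩ := ihy
    refine ⟨p * p', A.mul_mem hp hp', k + k', ?_⟩
    have hcm : z ^ k * B.i p' = B.i p' * z ^ k := ((C_comm B A hz hp').zpow_left k).eq
    calc u * B.i (x * y) * u⁻¹ = (u * B.i x * u⁻¹) * (u * B.i y * u⁻¹) := by
          rw [map_mul]
          group
      _ = B.i p * (z ^ k * B.i p') * z ^ k' := by
          rw [hk, hk']
          group
      _ = B.i (p * p') * z ^ (k + k') := by
          rw [hcm, map_mul, zpow_add]
          group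
  | inv x _ ihx =>
    obtain ⟨p, hp, k, hk⟩ := ihx
    refine ⟨p⁻¹, A.inv_mem hp, -k, ?_⟩
    have hcm : z ^ (-k) * B.i p⁻¹ = B.i p⁻¹ * z ^ (-k) :=
      ((C_comm B A hz (A.inv_mem hp)).zpow_left (-k)).eq
    calc u * B.i x⁻¹ * u⁻¹ = (u * B.i x * u⁻¹)⁻¹ := by
          rw [map_inv]
          group
      _ = z ^ (-k) * B.i p⁻¹ := by
          rw [hk, mul_inv_rev, map_inv, zpow_neg]
      _ = B.i p⁻¹ * z ^ (-k) := hcm

/-- second hypothesis of FIB -/
theorem fib2 (B : Bk F V₀ G) (A : Subgroup V₀) (L : Set (V₀ × V₀ × ℤ)) (h1 : p1 L = A)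
    (h2 : p2 L = A) {z u : G} (hz : u⁻¹ * z * u ∈ B.C A) (hc : Cd B.i L z u) :
    ∀ p ∈ A, ∃ q ∈ A, ∃ k : ℤ, B.i p = u * B.i q * u⁻¹ * z ^ k := by
  have hcomm : ∀ q ∈ A, Commute z (u * B.i q * u⁻¹) := by
    intro q hq
    have h3 := (C_comm B A hz hq).eq
    show z * (u * B.i q * u⁻¹) = (u * B.i q * u⁻¹) * z
    calc z * (u * B.i q * u⁻¹) = u * (u⁻¹ * z * u * B.i q) * u⁻¹ := by group
      _ = u * (B.i q * (u⁻¹ * z * u)) * u⁻¹ := by rw [h3]
      _ = (u * B.i q * u⁻¹) * z := by group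
  intro p hp
  rw [← h1] at hp
  unfold p1 at hp
  induction hp using Subgroup.closure_induction with
  | mem x hx =>
    obtain ⟨s, hs, rfl⟩ := hx
    refine ⟨s.2.1, ?_, -s.2.2, ?_⟩
    · rw [← h2]
      exact Subgroup.subset_closure ⟨s, hs, rfl⟩
    · rw [hc s hs, zpow_neg, mul_inv_cancel_right]
  | one =>
    refine ⟨1, A.one_mem, 0, ?_⟩
    rw [map_one, mul_one, mul_inv_cancel, zpow_zero, mul_one]
  | mul x y _ _ ihx ihy =>
    obtain ⟨p, hp, k, hk⟩ := ihx
    obtain ⟨p', hp', k', hk'⟩ := ihy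
    refine ⟨p * p', A.mul_mem hp hp', k + k', ?_⟩
    have hcm : z ^ k * (u * B.i p' * u⁻¹) = (u * B.i p' * u⁻¹) * z ^ k :=
      ((hcomm p' hp').zpow_left k).eq
    calc B.i (x * y) = (u * B.i p * u⁻¹) * (z ^ k * (u * B.i p' * u⁻¹)) * z ^ k' := by
          rw [map_mul, hk, hk']
          group
      _ = (u * B.i p * u⁻¹) * ((u * B.i p' * u⁻¹) * z ^ k) * z ^ k' := by rw [hcm]
      _ = u * B.i (p * p') * u⁻¹ * z ^ (k + k') := by
          rw [map_mul, zpow_add]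
          group
  | inv x _ ihx =>
    obtain ⟨p, hp, k, hk⟩ := ihx
    refine ⟨p⁻¹, A.inv_mem hp, -k, ?_⟩
    have hcm : z ^ (-k) * (u * B.i p⁻¹ * u⁻¹) = (u * B.i p⁻¹ * u⁻¹) * z ^ (-k) :=
      ((hcomm p⁻¹ (A.inv_mem hp)).zpow_left (-k)).eq
    calc B.i x⁻¹ = (B.i x)⁻¹ := map_inv _ _
      _ = z ^ (-k) * (u * B.i p⁻¹ * u⁻¹) := by
          rw [hk, mul_inv_rev, map_inv, zpow_neg]
          group
      _ = u * B.i p⁻¹ * u⁻¹ * z ^ (-k) := hcm

/-- SLP -/
theorem slp (hFib : FibStmt) : SlpStmt := by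
  classical
  intro ℓ hℓ M _ hM hl2 V₀ G H _ _ _ _ _ _ E₀ A hF B B' j hB hB' hPr n m hPE L hL1 hL2 χ hχ χ' hχ'
  have := Fintype.ofFinite G
  have := Fintype.ofFinite H
  have hran : ∀ x ∈ B.C A, ∃ h, j h = x := hPr.cen
  -- the sum for one `u`
  let T : G → ℂ := fun u => ∑ X : G, if Cd B.i L (X ^ m) u then χ X * χ' (u⁻¹ * X⁻¹ * u) else 0
  let T' : H → ℂ := fun u => ∑ X : H, if Cd B'.i L (X ^ m) u then
    χ (j X) * χ' (j (u⁻¹ * X⁻¹ * u)) else 0
  have hSL : SL B m L χ χ' = ∑ u, T u := by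
    unfold SL
    rw [finsum_mem_def, finsum_eq_sum_of_fintype, Fintype.sum_prod_type_right]
    refine Finset.sum_congr rfl fun u _ => Finset.sum_congr rfl fun X _ => ?_
    by_cases hc : Cd B.i L (X ^ m) u
    · rw [if_pos hc, Set.indicator_of_mem (show (X, u) ∈ {w : G × G | ∀ s ∈ L,
        w.2 * B.i s.2.1 * w.2⁻¹ = B.i s.1 * (w.1 ^ m) ^ s.2.2} from hc)]
    · rw [if_neg hc, Set.indicator_of_notMem (show (X, u) ∉ {w : G × G | ∀ s ∈ L,
        w.2 * B.i s.2.1 * w.2⁻¹ = B.i s.1 * (w.1 ^ m) ^ s.2.2} from hc)]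
  have hSL' : SL B' m L (fun h => χ (j h)) (fun h => χ' (j h)) = ∑ u, T' u := by
    unfold SL
    rw [finsum_mem_def, finsum_eq_sum_of_fintype, Fintype.sum_prod_type_right]
    refine Finset.sum_congr rfl fun u _ => Finset.sum_congr rfl fun X _ => ?_
    by_cases hc : Cd B'.i L (X ^ m) u
    · rw [if_pos hc, Set.indicator_of_mem (show (X, u) ∈ {w : H × H | ∀ s ∈ L,
        w.2 * B'.i s.2.1 * w.2⁻¹ = B'.i s.1 * (w.1 ^ m) ^ s.2.2} from hc)]
    · rw [if_neg hc, Set.indicator_of_notMem (show (X, u) ∉ {w : H × H | ∀ s ∈ L,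
        w.2 * B'.i s.2.1 * w.2⁻¹ = B'.i s.1 * (w.1 ^ m) ^ s.2.2} from hc)]
  -- the condition in `H`
  have hCd : ∀ X u : H, Cd B'.i L (X ^ m) u ↔ Cd B.i L (j X ^ m) (j u) := by
    intro X u
    unfold Cd
    refine forall₂_congr fun s hs => ?_
    rw [← hPr.i, ← hPr.i, ← map_pow, ← map_zpow, ← map_mul, ← map_inv, ← map_mul, ← map_mul]
    exact hPr.inj.eq_iff.symm
  have hTT : ∀ u : H, T' u = T (j u) := by
    intro u
    refine Fintype.sum_of_injective j hPr.inj _ _ ?_ ?_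
    · intro X hX
      have hXC : X ∉ B.C A := fun h => hX (hran X h)
      rw [hχ.1 X hXC, zero_mul, ite_self]
    · intro X
      simp only [hCd X u, map_mul, map_inv]
  have hT0 : ∀ u : G, u ∉ Set.range j → T u = 0 := by
    intro u hu
    -- fibres
    have hfib : T u = ∑ z : G, ∑ X : G, if X ^ m = z then
        (if Cd B.i L (X ^ m) u then χ X * χ' (u⁻¹ * X⁻¹ * u) else 0) else 0 := by
      rw [Finset.sum_comm]
      refine Finset.sum_congr rfl fun X _ => ?_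
      rw [Finset.sum_ite_eq, if_pos (Finset.mem_univ _)]
    rw [hfib]
    refine Finset.sum_eq_zero fun z _ => ?_
    by_contra hne
    obtain ⟨X₀, -, hX₀⟩ := Finset.exists_ne_zero_of_sum_ne_zero hne
    have hz : X₀ ^ m = z := by
      by_contra h
      exact hX₀ (if_neg h)
    rw [if_pos hz] at hX₀
    have hc : Cd B.i L (X₀ ^ m) u := by
      by_contra h
      exact hX₀ (if_neg h)
    rw [if_pos hc] at hX₀
    have hX1 : X₀ ∈ B.C A := by
      by_contra h
      exact hX₀ (by rw [hχ.1 _ h, zero_mul])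
    have hX2 : u⁻¹ * X₀⁻¹ * u ∈ B.C A := by
      by_contra h
      exact hX₀ (by rw [hχ'.1 _ h, mul_zero])
    rw [hz] at hc
    have hzC : z ∈ B.C A := by
      rw [← hz]
      exact (B.C A).pow_mem hX1 m
    have hzC' : u⁻¹ * z * u ∈ B.C A := by
      have h1 := (B.C A).pow_mem ((B.C A).inv_mem hX2) m
      have h2 : (u⁻¹ * X₀⁻¹ * u)⁻¹ = u⁻¹ * X₀ * u⁻¹⁻¹ := by group
      rw [h2, conj_pow, hz, inv_inv] at h1
      exact h1
    have hEl : El ℓ z := by
      rw [← hz]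
      exact (pe_parts hPE X₀).1
    have hzm : z ^ m = z := (hPE.el z hEl).1
    have hsum : (∑ X : G, if X ^ m = z then
        (if Cd B.i L (X ^ m) u then χ X * χ' (u⁻¹ * X⁻¹ * u) else 0) else 0) =
        ∑ᶠ x ∈ {x : G | x ∈ B.C A ∧ x * z = z * x ∧ Reg ℓ x},
          χ (z * x) * χ' (u⁻¹ * (z * x)⁻¹ * u) := by
      rw [finsum_mem_def, finsum_eq_sum_of_fintype]
      rw [← Equiv.sum_comp (Equiv.mulLeft z)]
      refine Finset.sum_congr rfl fun x _ => ?_
      rw [Equiv.coe_mulLeft]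
      by_cases hx : x ∈ {x : G | x ∈ B.C A ∧ x * z = z * x ∧ Reg ℓ x}
      · rw [Set.indicator_of_mem hx]
        obtain ⟨hx1, hx2, hx3⟩ := hx
        have hcm : Commute z x := hx2.symm
        have h1 : (z * x) ^ m = z := by
          rw [hcm.mul_pow, hzm, hPE.rg x hx3, mul_one]
        rw [if_pos h1, h1, if_pos hc]
      · rw [Set.indicator_of_notMem hx]
        by_cases h1 : (z * x) ^ m = z
        · rw [if_pos h1, h1, if_pos hc]
          have hcz : Commute z (z * x) := by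
            have h2 : Commute ((z * x) ^ m) (z * x) := (Commute.refl (z * x)).pow_left m
            rw [h1] at h2
            exact h2
          have hzx : z * x = x * z := by
            have h2 := hcz.eq
            rw [mul_assoc] at h2
            exact mul_left_cancel h2
          have hxr : Reg ℓ x := by
            have h2 := (pe_parts hPE (z * x)).2
            rw [h1, inv_mul_cancel_left] at h2
            exact h2
          have hxC : z * x ∉ B.C A := by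
            intro h2
            apply hx
            refine ⟨?_, hzx.symm, hxr⟩
            have h3 := (B.C A).mul_mem ((B.C A).inv_mem hzC) h2
            rw [inv_mul_cancel_left] at h3
            exact h3
          rw [hχ.1 _ hxC, zero_mul]
        · rw [if_neg h1]
    rw [hsum] at hne
    obtain ⟨σ, hσ, t, ht, htσ, g, hg, g', hg', v, hu1, -⟩ := hFib ℓ M hM hl2 V₀ G E₀ hF B hB A A
      χ hχ χ' hχ' u z hEl hzC hzC' (fib1 B A L hL1 hL2 hzC hc) (fib2 B A L hL1 hL2 hzC' hc) hne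
    obtain ⟨t', ht', htσ'⟩ := hB'.sur σ hσ
    have hcen : (j t')⁻¹ * t ∈ B.C A := by
      unfold Bk.C
      rw [Subgroup.mem_centralizer_iff]
      rintro _ ⟨w, hw, rfl⟩
      have e1 := htσ w
      have e2 : j t' * B.i w * (j t')⁻¹ = B.i (σ w) := by
        rw [← hPr.i, ← hPr.i, ← map_inv, ← map_mul, ← map_mul, htσ' w]
      rw [← e2] at e1
      calc B.i w * ((j t')⁻¹ * t) = (j t')⁻¹ * (j t' * B.i w * (j t')⁻¹) * t := by group
        _ = (j t')⁻¹ * (t * B.i w * t⁻¹) * t := by rw [e1]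
        _ = (j t')⁻¹ * t * B.i w := by group
    obtain ⟨h₁, hh₁⟩ := hran g hg
    obtain ⟨h₂, hh₂⟩ := hran g' hg'
    obtain ⟨h₃, hh₃⟩ := hran _ hcen
    apply hu
    refine ⟨h₁ * (t' * h₃) * h₂, ?_⟩
    rw [map_mul, map_mul, map_mul, hh₁, hh₂, hh₃, hu1]
    group
  rw [hSL, hSL']
  exact Fintype.sum_of_injective j hPr.inj _ _ (fun u hu => hT0 u hu) hTT

end Pool.Agent.PP.SD.H3
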