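import Pool.Agent.ASD.Stmts3
import Pool.Agent.Helper1_ASO.SYE

/-!
# Squad ASD, row SYD: existence of the local data (after `Helper1_ASO/SYE.lean`)
-/

open scoped BigOperators

noncomputable section

namespace Pool.Agent.PP.SD.H3

open Pool.Agent.Helper51_AWC Pool.Agent.Helper79_WRA Pool.Agent.PP Pool.Agent.PP.KF
open Pool.Agent.PP.K9 Pool.Agent.PP.K9.H97 Pool.Agent.PP.H75 Pool.Agent.PP.T3 Pool.Agent.PP.SO
open Pool.Agent.PP.SD

attribute [local instance] Ideal.Quotient.field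

/-- SYD -/
theorem syd (hLbu : LbuStmt) (hLbd : LbdStmt) : SydStmt := by
  classical
  intro ℓ hℓ M _ hM V₀ G _ _ _ _ E₀ hFr e g i hinj hL hact hsur
  have hF : GoodF ℓ (FF M) := H50.fld ℓ Fact.out M hM
  obtain ⟨hex, huni, htop, -, -⟩ := hLbu ℓ (FF M) hF V₀ G e g i hinj hL
  choose b hb using hex
  have hbtop : b ⊤ = g := huni ⊤ _ _ (hb ⊤) htop
  let B₀ : Bk (FF M) V₀ G := ⟨e, g, i, b, fun _ => 1, fun _ => 1⟩
  have hS₀ : Sb ℓ M E₀ B₀ := ⟨hinj, hL, hact, hsur, hb⟩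
  have hlbg := hLbd ℓ M hM V₀ G E₀ hFr B₀ hS₀
  have hD : ∀ W : Subgroup V₀, ∃ d : ℕ, Rw E₀ W → Dg M (fun t : B₀.C W => b W t) d := by
    intro W
    by_cases hW : Rw E₀ W
    · obtain ⟨h1, -, h2⟩ := hlbg W
      obtain ⟨⟨d, hd⟩, -⟩ := T3.Asm.nil_ ℓ M hM (B₀.C W) _ _ _ h1 (h2 hW)
      exact ⟨d, fun _ => hd⟩
    · exact ⟨0, fun h => absurd h hW⟩
  choose D hD using hD
  have htb : Rw E₀ (⊤ : Subgroup V₀) := by
    refine ⟨?_, fun σ _ h => MulEquiv.ext fun v => h v (Subgroup.mem_top v)⟩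
    intro h
    have h1 : Nat.card V₀ = 1 := by
      rw [← Subgroup.card_top, h, Subgroup.card_bot]
    rw [hFr.cd] at h1
    have h2 := hℓ.out.one_lt
    have h3 : 1 < ℓ ^ 2 := Nat.one_lt_pow two_ne_zero h2
    omega
  have hCtop : B₀.C ⊤ = Subgroup.centralizer (i.range : Set G) := by
    show Subgroup.centralizer (((⊤ : Subgroup V₀).map i : Subgroup G) : Set G) = _
    rw [← MonoidHom.range_eq_map]
  have hDtop : Dg M (fun t : Subgroup.centralizer (i.range : Set G) => g t) (D ⊤) := by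
    have h1 := hD ⊤ htb
    rw [hbtop] at h1
    have h2 : ∀ C : Subgroup G, B₀.C ⊤ = C → Dg M (fun t : C => g t) (D ⊤) := by
      rintro _ rfl
      exact h1
    exact h2 _ hCtop
  have hS : ∀ W : Subgroup V₀, ∃ ε : ℤ, Rw E₀ W → (ε = 1 ∨ ε = -1) ∧ ∃ q ∈ SOR.Rl ℓ,
      (ε * Nat.card (B₀.C W) * D ⊤ / (Nat.card (B₀.C ⊤) * D W) : ℚ) = 1 + ℓ * q := by
    intro W
    by_cases hW : Rw E₀ W
    · obtain ⟨h1, -, h2⟩ := hlbg W
      have hWV : (W.map i : Subgroup G) ≤ i.range := by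
        rw [MonoidHom.range_eq_map]
        exact Subgroup.map_mono le_top
      have hVX : i.range ≤ B₀.C W := by
        intro v hv
        show v ∈ Subgroup.centralizer ((W.map i : Subgroup G) : Set G)
        rw [Subgroup.mem_centralizer_iff]
        intro w hw
        exact hL.ab w (hWV hw) v hv
      have hCX : Subgroup.centralizer (i.range : Set G) ≤ B₀.C W :=
        Subgroup.centralizer_le hWV
      have hc := T3.H85.dg_equiv (T3.H85.cequiv hVX hCX).symm hL.gam.blk.1.1 hDtop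
      obtain ⟨ε, hε, r1, r2⟩ := T3.Asm.nit_ ℓ M hM (B₀.C W) _ _ _ h1 (h2 hW) (D W) (D ⊤)
        (hD W hW) hc
      have hcard : Nat.card (Subgroup.centralizer
          ((B₀.i.range.subgroupOf (B₀.C W) : Subgroup (B₀.C W)) : Set (B₀.C W))) =
          Nat.card (B₀.C ⊤) := by
        rw [hCtop]
        exact Nat.card_congr (T3.H85.cequiv hVX hCX).toEquiv
      rw [hcard] at r1 r2
      refine ⟨ε, fun _ => ⟨hε, ?_⟩⟩
      have e1 : (((ε * Nat.card (B₀.C W) * D ⊤ / (Nat.card (B₀.C ⊤) * D W) : ℚ)) : ℂ) =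
          (ε : ℂ) * ((Nat.card (B₀.C W) * D ⊤ : ℂ) / (Nat.card (B₀.C ⊤) * D W)) := by
        push_cast
        ring
      have e2 : ((ε : FF M)) * ε = 1 := by
        rcases hε with h | h <;> rw [h] <;> norm_num
      apply SO.H1.rat_one hM
      · rw [e1]
        exact (RM M).mul_mem (rr_int _).1 r1
      · rw [e1, rr_mul (rr_int _).1 r1, r2, (rr_int ε).2, e2]
    · exact ⟨0, fun h => absurd h hW⟩
  choose S hS using hS
  exact ⟨⟨e, g, i, b, D, S⟩, rfl, rfl, rfl, ⟨⟨hinj, hL, hact, hsur, hb⟩, hD,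
    fun W hW => (hS W hW).1, fun W hW => (hS W hW).2⟩⟩

end Pool.Agent.PP.SD.H3
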